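import Mathlib

set_option autoImplicit false

/-!
A red/blue coloured bipartite graph with parts `A = {0,1,2,3}` and `B = {4,5,6}` such that
`|N^{RB}(X)| ≥ |X| - 1` for every `X ⊆ A`, but no alternating path covers `A`:
vertex `4` has red neighbours `0,1` and blue neighbours `2,3`; vertex `5` has red neighbours `0,3`
and blue neighbours `1,2`; vertex `6` has the red neighbour `1` and the blue neighbour `3`.
-/

namespace Pool.Agent.Results.MP_9cf868_co.SevenVertices

/-- The set of vertices joined to some vertex of `X` by a red edge and to some vertex of `X` by a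
blue edge (`c e = true` means that `e` is red, `c e = false` that it is blue). -/
def NRB {V : Type} (G : SimpleGraph V) (c : Sym2 V → Bool) (X : Set V) : Set V :=
  {v | (∃ x ∈ X, G.Adj x v ∧ c s(x, v) = true) ∧ ∃ x ∈ X, G.Adj x v ∧ c s(x, v) = false}

/-- Consecutive vertices of the list are adjacent and consecutive edges have different colours. -/
def Alternating {V : Type} (G : SimpleGraph V) (c : Sym2 V → Bool) : List V → Prop
  | [] => True
  | [_] => True
  | [x, y] => G.Adj x y
  | x :: y :: z :: l => G.Adj x y ∧ c s(x, y) ≠ c s(y, z) ∧ Alternating G c (y :: z :: l)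

/-- The statement of Q1: in every finite bipartite graph with parts `A`, `B` and red/blue coloured
edges such that `|N^{RB}(X)| ≥ |X| - 1` for all `X ⊆ A`, some alternating path covers `A`. -/
def Question : Prop :=
  ∀ (V : Type) (_ : Finite V) (G : SimpleGraph V) (c : Sym2 V → Bool) (A B : Set V),
    A ∪ B = Set.univ → Disjoint A B → (∀ x y, G.Adj x y → (x ∈ A ∧ y ∈ B) ∨ (x ∈ B ∧ y ∈ A)) →
    (∀ X : Set V, X ⊆ A → X.ncard ≤ (NRB G c X).ncard + 1) →
    ∃ l : List V, l.Nodup ∧ Alternating G c l ∧ ∀ a ∈ A, a ∈ l

/-- The red edges, as pairs (vertex of `A`, vertex of `B`). -/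
def redPairs : List (Fin 7 × Fin 7) := [(0, 4), (1, 4), (0, 5), (3, 5), (1, 6)]

/-- The blue edges, as pairs (vertex of `A`, vertex of `B`). -/
def bluePairs : List (Fin 7 × Fin 7) := [(2, 4), (3, 4), (1, 5), (2, 5), (3, 6)]

/-- The graph of all red and blue edges. -/
def G7 : SimpleGraph (Fin 7) where
  Adj x y := (x, y) ∈ redPairs ++ bluePairs ∨ (y, x) ∈ redPairs ++ bluePairs
  symm := ⟨fun _ _ h => h.symm⟩
  loopless := ⟨by decide⟩

instance : DecidableRel G7.Adj := fun x y =>
  inferInstanceAs (Decidable ((x, y) ∈ redPairs ++ bluePairs ∨ (y, x) ∈ redPairs ++ bluePairs))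

/-- The colouring: `true` on red edges, `false` elsewhere. -/
def c7 : Sym2 (Fin 7) → Bool :=
  Sym2.lift ⟨fun x y => decide ((x, y) ∈ redPairs ∨ (y, x) ∈ redPairs), by
    intro x y
    simp only [or_comm]⟩

/-- Decidable form of `Alternating` with pairwise distinct vertices. -/
def altB : List (Fin 7) → Bool
  | [] => true
  | [_] => true
  | [x, y] => decide (x ≠ y) && decide (G7.Adj x y)
  | x :: y :: z :: l => decide (x ∉ y :: z :: l) && decide (G7.Adj x y) &&
      (c7 s(x, y) != c7 s(y, z)) && altB (y :: z :: l)

/-- One-vertex extensions of the lists of `L`. -/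
def ext (L : List (List (Fin 7))) : List (List (Fin 7)) :=
  (L.flatMap fun l => (List.finRange 7).map fun v => v :: l).filter altB

/-- All alternating paths on `n` vertices. -/
def gen : ℕ → List (List (Fin 7))
  | 0 => [[]]
  | n + 1 => ext (gen n)

theorem altB_of {l : List (Fin 7)} (h1 : l.Nodup) (h2 : Alternating G7 c7 l) : altB l = true := by
  induction l with
  | nil => rfl
  | cons x l ih =>
    cases l with
    | nil => rfl
    | cons y l =>
      cases l with
      | nil =>
        have : x ≠ y := by
          rintro rfl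
          simp at h1
        simp only [altB, Bool.and_eq_true, decide_eq_true_eq]
        exact ⟨this, h2⟩
      | cons z l =>
        obtain ⟨a1, a2, a3⟩ := h2
        rw [List.nodup_cons] at h1
        simp only [altB, Bool.and_eq_true, decide_eq_true_eq, bne_iff_ne, ne_eq]
        exact ⟨⟨⟨h1.1, a1⟩, a2⟩, ih h1.2 a3⟩

theorem alternating_tail {x : Fin 7} {l : List (Fin 7)} (h : Alternating G7 c7 (x :: l)) :
    Alternating G7 c7 l := by
  cases l with
  | nil => trivial
  | cons y l =>
    cases l with
    | nil => trivial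
    | cons z l => exact h.2.2

theorem mem_gen : ∀ (l : List (Fin 7)), l.Nodup → Alternating G7 c7 l → l ∈ gen l.length := by
  intro l
  induction l with
  | nil => intro _ _; simp [gen]
  | cons x l ih =>
    intro h1 h2
    have h3 := ih (List.nodup_cons.1 h1).2 (alternating_tail h2)
    simp only [List.length_cons, gen, ext, List.mem_filter, List.mem_flatMap, List.mem_map]
    exact ⟨⟨l, h3, x, List.mem_finRange x, rfl⟩, altB_of h1 h2⟩

theorem no_cover : ∀ n : Fin 8, ∀ l ∈ gen n.val,
    ¬ ((0 : Fin 7) ∈ l ∧ (1 : Fin 7) ∈ l ∧ (2 : Fin 7) ∈ l ∧ (3 : Fin 7) ∈ l) := by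
  decide +kernel

/-- **Q1 is false.** -/
theorem result : ¬ Question := by
  intro hQ
  obtain ⟨l, h1, h2, h3⟩ := hQ (Fin 7) inferInstance G7 c7 {v | v.val < 4} {v | 4 ≤ v.val}
    (by
      ext v
      simp only [Set.mem_union, Set.mem_ofPred_eq, Set.mem_univ, iff_true]
      omega)
    (by
      rw [Set.disjoint_left]
      intro v hv hv'
      simp only [Set.mem_ofPred_eq] at hv hv'
      omega)
    (by
      intro x y
      simp only [Set.mem_ofPred_eq]
      revert x y
      decide)
    (by
      intro X hX
      classical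
      have key : ∀ Y : Finset (Fin 7), (∀ v ∈ Y, v.val < 4) → Y.card ≤
          (Finset.univ.filter (fun v => (∃ x ∈ Y, G7.Adj x v ∧ c7 s(x, v) = true) ∧
            ∃ x ∈ Y, G7.Adj x v ∧ c7 s(x, v) = false)).card + 1 := by
        decide +kernel
      have h := key X.toFinset (by
        intro v hv
        exact hX (by simpa using hv))
      have e1 : X.ncard = X.toFinset.card := Set.ncard_eq_toFinset_card' X
      have e2 : (NRB G7 c7 X).ncard = (Finset.univ.filter (fun v =>
          (∃ x ∈ X.toFinset, G7.Adj x v ∧ c7 s(x, v) = true) ∧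
            ∃ x ∈ X.toFinset, G7.Adj x v ∧ c7 s(x, v) = false)).card := by
        rw [← Set.ncard_coe_finset]
        congr 1
        ext v
        simp [NRB]
      rw [e1, e2]
      exact h)
  have h4 := mem_gen l h1 h2
  have h5 : l.length < 8 := by
    have := h1.length_le_card
    rw [Fintype.card_fin] at this
    omega
  exact no_cover ⟨l.length, h5⟩ l h4 ⟨h3 0 (by simp), h3 1 (by simp), h3 2 (by simp),
    h3 3 (by simp)⟩

end Pool.Agent.Results.MP_9cf868_co.SevenVertices
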